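import Pool.Agent.W770.PC.Stms

set_option autoImplicit false

/-!
# The weight is roughly constant on a flat cell
-/

open MeasureTheory Set Filter Topology

namespace Pool.Agent.W368.PC

open Pool.Agent.W770.PC

theorem mv (h1 : S_der) (f : ℝ × ℝ → ℝ) (hf : ContDiff ℝ (⊤ : ℕ∞) f) (a b c d M : ℝ)
    (hM : ∀ z ∈ Icc a b ×ˢ Icc c d, |d1 f z| ≤ M ∧ |d2 f z| ≤ M)
    (y w : ℝ × ℝ) (hy : y ∈ Icc a b ×ˢ Icc c d) (hw : w ∈ Icc a b ×ˢ Icc c d) :
    |f y - f w| ≤ M * |y.1 - w.1| + M * |y.2 - w.2| := by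
  obtain ⟨-, -, e1, e2, -⟩ := h1 f hf
  have s1 : |f (y.1, y.2) - f (w.1, y.2)| ≤ M * |y.1 - w.1| :=
    Convex.norm_image_sub_le_of_norm_hasDerivWithin_le (𝕜 := ℝ) (f := fun u => f (u, y.2))
      (f' := fun u => d1 f (u, y.2)) (s := Icc a b)
      (fun u _ => (e1 (u, y.2)).hasDerivWithinAt)
      (fun u hu => (hM (u, y.2) ⟨hu, hy.2⟩).1) (convex_Icc a b) hw.1 hy.1
  have s2 : |f (w.1, y.2) - f (w.1, w.2)| ≤ M * |y.2 - w.2| :=
    Convex.norm_image_sub_le_of_norm_hasDerivWithin_le (𝕜 := ℝ) (f := fun v => f (w.1, v))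
      (f' := fun v => d2 f (w.1, v)) (s := Icc c d)
      (fun v _ => (e2 (w.1, v)).hasDerivWithinAt)
      (fun v hv => (hM (w.1, v) ⟨hw.1, hv⟩).2) (convex_Icc c d) hw.2 hy.2
  calc |f y - f w| = |(f (y.1, y.2) - f (w.1, y.2)) + (f (w.1, y.2) - f (w.1, w.2))| := by
        congr 1; ring
    _ ≤ _ := (abs_add_le _ _).trans (add_le_add s1 s2)

theorem comp_thm (h1 : S_der) : S_comp := by
  intro C
  refine ⟨(1 + 4 * |C|) ^ 3, by positivity, ?_⟩
  intro g hg a k hC x y hy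
  have h2a : (0 : ℝ) < 2 ^ a := by positivity
  have hw : cen a k ∈ cell a k := by
    refine ⟨⟨?_, ?_⟩, ⟨?_, ?_⟩⟩ <;>
    · simp only [cen]
      apply div_le_div_of_nonneg_right _ h2a.le
      linarith
  have hsm := h1 g hg
  have hd : ∀ z ∈ cell a k, |d1 (d1 g) z| ≤ |C| * 4 ^ a ∧ |d2 (d1 g) z| ≤ |C| * 4 ^ a ∧
      |d1 (d2 g) z| ≤ |C| * 4 ^ a ∧ |d2 (d2 g) z| ≤ |C| * 4 ^ a := by
    intro z hz
    have e := hC z hz
    rw [hsm.2.2.2.2.2.1 z]
    unfold hess at e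
    have e1 : C * 4 ^ a ≤ |C| * 4 ^ a := mul_le_mul_of_nonneg_right (le_abs_self C) (by positivity)
    have e2 := abs_nonneg (d1 (d1 g) z)
    have e3 := abs_nonneg (d1 (d2 g) z)
    have e4 := abs_nonneg (d2 (d2 g) z)
    refine ⟨?_, ?_, ?_, ?_⟩ <;> linarith
  have hy1 : |y.1 - (cen a k).1| ≤ 1 / 2 ^ a := by
    have := hy.1
    rw [mem_Icc, sub_div, add_div] at this
    simp only [cen]
    rw [abs_le]
    constructor <;> linarith [this.1, this.2]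
  have hy2 : |y.2 - (cen a k).2| ≤ 1 / 2 ^ a := by
    have := hy.2
    rw [mem_Icc, sub_div, add_div] at this
    simp only [cen]
    rw [abs_le]
    constructor <;> linarith [this.1, this.2]
  have h4 : (4 : ℝ) ^ a = 2 ^ a * 2 ^ a := by rw [← mul_pow]; norm_num
  have key : ∀ f : ℝ × ℝ → ℝ, ContDiff ℝ (⊤ : ℕ∞) f →
      (∀ z ∈ cell a k, |d1 f z| ≤ |C| * 4 ^ a ∧ |d2 f z| ≤ |C| * 4 ^ a) →
      |f y - f (cen a k)| ≤ 2 * |C| * 2 ^ a := by
    intro f hf hM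
    have e := mv h1 f hf _ _ _ _ _ hM y (cen a k) hy hw
    have e1 : |C| * 4 ^ a * |y.1 - (cen a k).1| ≤ |C| * 4 ^ a * (1 / 2 ^ a) :=
      mul_le_mul_of_nonneg_left hy1 (by positivity)
    have e2 : |C| * 4 ^ a * |y.2 - (cen a k).2| ≤ |C| * 4 ^ a * (1 / 2 ^ a) :=
      mul_le_mul_of_nonneg_left hy2 (by positivity)
    have e3 : |C| * 4 ^ a * (1 / 2 ^ a) = |C| * 2 ^ a := by
      rw [h4]; field_simp
    linarith
  have k1 := key (d1 g) hsm.1 fun z hz => ⟨(hd z hz).1, (hd z hz).2.1⟩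
  have k2 := key (d2 g) hsm.2.1 fun z hz => ⟨(hd z hz).2.2.1, (hd z hz).2.2.2⟩
  have hgr : gr g x y ≤ gr g x (cen a k) + 4 * |C| * 2 ^ a := by
    unfold gr
    have e1 : |d1 g y + x.1| ≤ |d1 g (cen a k) + x.1| + |d1 g y - d1 g (cen a k)| := by
      calc |d1 g y + x.1| = |(d1 g (cen a k) + x.1) + (d1 g y - d1 g (cen a k))| := by
            congr 1; ring
        _ ≤ _ := abs_add_le _ _
    have e2 : |d2 g y + x.2| ≤ |d2 g (cen a k) + x.2| + |d2 g y - d2 g (cen a k)| := by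
      calc |d2 g y + x.2| = |(d2 g (cen a k) + x.2) + (d2 g y - d2 g (cen a k))| := by
            congr 1; ring
        _ ≤ _ := abs_add_le _ _
    linarith
  have g0 : ∀ z, 0 ≤ gr g x z := fun z => add_nonneg (abs_nonneg _) (abs_nonneg _)
  have hq : 1 + gr g x y / 2 ^ a ≤ (1 + 4 * |C|) * (1 + gr g x (cen a k) / 2 ^ a) := by
    have e1 : gr g x y / 2 ^ a ≤ gr g x (cen a k) / 2 ^ a + 4 * |C| := by
      rw [div_add' _ _ _ h2a.ne']
      exact div_le_div_of_nonneg_right hgr h2a.le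
    have e2 : 0 ≤ gr g x (cen a k) / 2 ^ a := div_nonneg (g0 _) h2a.le
    nlinarith [mul_nonneg (abs_nonneg C) e2]
  have p1 : 0 < 1 + gr g x y / 2 ^ a := by have := div_nonneg (g0 y) h2a.le; linarith
  have p2 : 0 < 1 + gr g x (cen a k) / 2 ^ a := by
    have := div_nonneg (g0 (cen a k)) h2a.le; linarith
  have hq3 : (1 + gr g x y / 2 ^ a) ^ 3 ≤
      (1 + 4 * |C|) ^ 3 * (1 + gr g x (cen a k) / 2 ^ a) ^ 3 := by
    rw [← mul_pow]
    exact pow_le_pow_left₀ p1.le hq 3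
  unfold wt
  rw [← div_eq_mul_inv, le_div_iff₀ (by positivity), inv_mul_le_iff₀ (by positivity)]
  linarith

end Pool.Agent.W368.PC
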